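import Pool.Agent.H.MP_f66848_co.Main

namespace Pool.Agent.Results.MP_f66848_co.Limit
open Pool.Agent.H.MP_f66848_co Filter Topology

theorem result (n : ℕ) (hn : 1 ≤ n) :
    Tendsto (fun m : ℕ => (chiPC (completeBipartiteGraph (Fin n) (Fin m)) : ℝ) / m) atTop
      (𝓝 (1 / 2)) ∧
    ∀ m k : ℕ, m + 2 * n ≤ 2 * k → PropChoosable (completeBipartiteGraph (Fin n) (Fin m)) k :=
  ⟨limit hn, fun _ _ h => upper (by simpa using hn) (by simpa using h)⟩

end Pool.Agent.Results.MP_f66848_co.Limit
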